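import Mathlib

/-!
# Induced permutations of cosets, words checked by braid moves
-/

set_option autoImplicit false

namespace Pool.Agent.Lib.MP_c2d01e_co.Fi

variable {G : Type} [Group G]

/-- The product of a word. -/
def lp (x : Fin 6 → G) (w : List (Fin 6)) : G := (w.map x).prod

theorem lp_nil (x : Fin 6 → G) : lp x [] = 1 := rfl

theorem lp_cons (x : Fin 6 → G) (k : Fin 6) (w : List (Fin 6)) : lp x (k :: w) = x k * lp x w := by
  simp [lp]

theorem lp_append (x : Fin 6 → G) (u w : List (Fin 6)) : lp x (u ++ w) = lp x u * lp x w := by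
  simp [lp]

/-- The alternating word. -/
def alt (s t : Fin 6) : ℕ → List (Fin 6)
  | 0 => []
  | n + 1 => s :: alt t s n

/-- One move: a cancellation (`s = t`) or a braid move. -/
def step (cx : Fin 6 → Fin 6 → ℕ) (w : List (Fin 6)) (mv : ℕ × Fin 6 × Fin 6) :
    Option (List (Fin 6)) :=
  if mv.2.1 = mv.2.2 then
    if (w.drop mv.1).take 2 = [mv.2.1, mv.2.1] then some (w.take mv.1 ++ w.drop (mv.1 + 2)) else none
  else if (w.drop mv.1).take (cx mv.2.1 mv.2.2) = alt mv.2.1 mv.2.2 (cx mv.2.1 mv.2.2) then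
    some (w.take mv.1 ++ (alt mv.2.2 mv.2.1 (cx mv.2.1 mv.2.2) ++
      w.drop (mv.1 + cx mv.2.1 mv.2.2)))
  else none

/-- A list of moves. -/
def run (cx : Fin 6 → Fin 6 → ℕ) : List (Fin 6) → List (ℕ × Fin 6 × Fin 6) → Option (List (Fin 6))
  | w, [] => some w
  | w, mv :: l => match step cx w mv with
    | none => none
    | some w' => run cx w' l

/-- The Coxeter relations. -/
structure Cx (cx : Fin 6 → Fin 6 → ℕ) (x : Fin 6 → G) : Prop where
  sq : ∀ s, x s * x s = 1
  pw : ∀ s t, (x s * x t) ^ cx s t = 1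
  br : ∀ s t, lp x (alt s t (cx s t)) = lp x (alt t s (cx s t))

theorem mkCx {cx : Fin 6 → Fin 6 → ℕ} {x : Fin 6 → G} (h1 : ∀ s, cx s s = 1)
    (h2 : ∀ s t, s ≠ t → cx s t = 2 ∨ cx s t = 3 ∨ cx s t = 4)
    (pw : ∀ s t, (x s * x t) ^ cx s t = 1) : Cx cx x := by
  have sq : ∀ s, x s * x s = 1 := fun s => by
    have := pw s s
    rwa [h1, pow_one] at this
  have iv : ∀ s, (x s)⁻¹ = x s := fun s => inv_eq_of_mul_eq_one_left (sq s)
  refine ⟨sq, pw, fun s t => ?_⟩
  by_cases hst : s = t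
  · rw [hst]
  · have h := pw s t
    rcases h2 s t hst with h3 | h3 | h3
    · rw [h3] at h ⊢
      simp only [alt, lp_cons, lp_nil, mul_one]
      have h5 : x s * x t = (x s * x t)⁻¹ := by
        rw [eq_inv_iff_mul_eq_one, ← pow_two]
        exact h
      rw [h5, mul_inv_rev, iv, iv]
    · rw [h3] at h ⊢
      simp only [alt, lp_cons, lp_nil, mul_one]
      have h5 : (x s * x t * x s) = (x t * x s * x t)⁻¹ := by
        rw [eq_inv_iff_mul_eq_one]
        rw [← h]
        simp only [pow_succ, pow_zero, one_mul, mul_assoc]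
      rw [← mul_assoc, h5, mul_inv_rev, mul_inv_rev, iv, iv]
    · rw [h3] at h ⊢
      simp only [alt, lp_cons, lp_nil, mul_one]
      have h5 : (x s * x t * x s * x t) = (x s * x t * x s * x t)⁻¹ := by
        rw [eq_inv_iff_mul_eq_one]
        rw [← h]
        simp only [pow_succ, pow_zero, one_mul, mul_assoc]
      rw [← mul_assoc, ← mul_assoc, h5, mul_inv_rev, mul_inv_rev, mul_inv_rev, iv, iv]

theorem step_sound {cx : Fin 6 → Fin 6 → ℕ} {x : Fin 6 → G} (h : Cx cx x) (w w' : List (Fin 6))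
    (mv : ℕ × Fin 6 × Fin 6) (hs : step cx w mv = some w') : lp x w = lp x w' := by
  unfold step at hs
  have e : ∀ k m : ℕ, w = w.take k ++ ((w.drop k).take m ++ w.drop (k + m)) := by
    intro k m
    rw [← List.drop_drop, List.take_append_drop, List.take_append_drop]
  split_ifs at hs with h1 h2 h3
  · rw [Option.some_inj] at hs
    have e2 := e mv.1 2
    rw [h2] at e2
    rw [e2, ← hs, lp_append, lp_append, lp_append]
    rw [lp_cons, lp_cons, lp_nil, mul_one, h.sq, one_mul]
  · rw [Option.some_inj] at hs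
    have e2 := e mv.1 (cx mv.2.1 mv.2.2)
    rw [h3] at e2
    rw [e2, ← hs, lp_append, lp_append, lp_append, lp_append, h.br]

theorem run_sound {cx : Fin 6 → Fin 6 → ℕ} {x : Fin 6 → G} (h : Cx cx x)
    (l : List (ℕ × Fin 6 × Fin 6)) : ∀ w w' : List (Fin 6), run cx w l = some w' →
    lp x w = lp x w' := by
  induction l with
  | nil =>
    intro w w' hw
    rw [run, Option.some_inj] at hw
    rw [hw]
  | cons mv l ih =>
    intro w w' hw
    rw [run] at hw
    rcases h5 : step cx w mv with _ | w''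
    · rw [h5] at hw
      exact absurd hw (by simp)
    · rw [h5] at hw
      rw [step_sound h w w'' mv h5]
      exact ih w'' w' hw

theorem lp_rev {cx : Fin 6 → Fin 6 → ℕ} {x : Fin 6 → G} (h : Cx cx x) (w : List (Fin 6)) :
    lp x w.reverse = (lp x w)⁻¹ := by
  induction w with
  | nil => simp [lp_nil]
  | cons k w ih =>
    rw [List.reverse_cons, lp_append, ih, lp_cons, lp_cons, lp_nil, mul_one, mul_inv_rev]
    congr 1
    exact (inv_eq_of_mul_eq_one_left (h.sq k)).symm

/-- Equality of two words. -/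
theorem eq_of_run {cx : Fin 6 → Fin 6 → ℕ} {x : Fin 6 → G} (h : Cx cx x) {u w : List (Fin 6)}
    (l : List (ℕ × Fin 6 × Fin 6)) (hr : run cx (u ++ w.reverse) l = some []) :
    lp x u = lp x w := by
  have h1 := run_sound h l _ _ hr
  rw [lp_append, lp_rev h, lp_nil, mul_inv_eq_one] at h1
  exact h1

/-- A conjugate of a word of order dividing `n`. -/
theorem pow_of_run {cx : Fin 6 → Fin 6 → ℕ} {x : Fin 6 → G} (h : Cx cx x) {u g r : List (Fin 6)}
    (l : List (ℕ × Fin 6 × Fin 6)) (hr : run cx (u ++ (g ++ (r ++ g.reverse)).reverse) l = some [])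
    {n : ℕ} (hn : lp x r ^ n = 1) : lp x u ^ n = 1 := by
  rw [eq_of_run h l hr, lp_append, lp_append, lp_rev h, ← mul_assoc, conj_pow, hn]
  simp

theorem pow_rev {cx : Fin 6 → Fin 6 → ℕ} {x : Fin 6 → G} (h : Cx cx x) {r : List (Fin 6)} {n : ℕ}
    (hn : lp x r ^ n = 1) : lp x r.reverse ^ n = 1 := by
  rw [lp_rev h, inv_pow, hn, inv_one]

/-- The product of two commuting words of order dividing `n`. -/
theorem pow_of_comm {cx : Fin 6 → Fin 6 → ℕ} {x : Fin 6 → G} (h : Cx cx x)
    {u y z : List (Fin 6)} (l l' : List (ℕ × Fin 6 × Fin 6))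
    (hr : run cx (u ++ (y ++ z).reverse) l = some [])
    (hc : run cx ((y ++ z) ++ (z ++ y).reverse) l' = some [])
    {n : ℕ} (hy : lp x y ^ n = 1) (hz : lp x z ^ n = 1) : lp x u ^ n = 1 := by
  have h1 := eq_of_run h l' hc
  rw [lp_append, lp_append] at h1
  have h2 : Commute (lp x y) (lp x z) := h1
  rw [eq_of_run h l hr, lp_append, h2.mul_pow, hy, hz, one_mul]

/-- Check that a word is trivial: empty or an alternating word of suitable length. -/
def isRel (cx : Fin 6 → Fin 6 → ℕ) (w : List (Fin 6)) : Bool :=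
  match w with
  | [] => true
  | [_] => false
  | p :: q :: _ => (List.range 5).any fun n => decide (w = (List.replicate (cx p q * n) [p, q]).flatten)

theorem lp_replicate (x : Fin 6 → G) (u : List (Fin 6)) (n : ℕ) :
    lp x (List.replicate n u).flatten = lp x u ^ n := by
  induction n with
  | zero => simp [lp]
  | succ n ih => rw [List.replicate_succ, List.flatten_cons, lp_append, ih, pow_succ']

theorem isRel_sound {cx : Fin 6 → Fin 6 → ℕ} {x : Fin 6 → G} (h : Cx cx x) (w : List (Fin 6))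
    (hw : isRel cx w = true) : lp x w = 1 := by
  match w, hw with
  | [], _ => rfl
  | p :: q :: r, hw =>
    unfold isRel at hw
    rw [List.any_eq_true] at hw
    obtain ⟨n, _, hn⟩ := hw
    rw [decide_eq_true_iff] at hn
    rw [hn, lp_replicate, lp_cons, lp_cons, lp_nil, mul_one, pow_mul, h.pw, one_pow]

/-! ### Induced permutations -/

/-- Tables: next coset and label. -/
structure Tb (K : ℕ) where
  nx : Fin 6 → Fin K → Fin K
  lb : Fin 6 → Fin K → List (Fin 6)

variable {K : ℕ} (T : Tb K)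

/-- next coset of a word -/
def nxw : List (Fin 6) → Fin K → Fin K
  | [], i => i
  | k :: w, i => T.nx k (nxw w i)

/-- label of a word -/
def lbw : List (Fin 6) → Fin K → List (Fin 6)
  | [], _ => []
  | k :: w, i => T.lb k (nxw T w i) ++ lbw w i

/-- The induced permutation. -/
def act (cx : Fin 6 → Fin 6 → ℕ) (x : Fin 6 → G) (h : Cx cx x)
    (h1 : ∀ k i, T.nx k (T.nx k i) = i)
    (h2 : ∀ k i, isRel cx (T.lb k (T.nx k i) ++ T.lb k i) = true) (k : Fin 6) :
    Equiv.Perm (Fin K × G) :=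
  Function.Involutive.toPerm (fun p => (T.nx k p.1, lp x (T.lb k p.1) * p.2)) (by
    rintro ⟨i, g⟩
    have h3 := isRel_sound h _ (h2 k i)
    rw [lp_append] at h3
    simp only [h1, ← mul_assoc, h3, one_mul])

theorem act_word (cx : Fin 6 → Fin 6 → ℕ) (x : Fin 6 → G) (h : Cx cx x)
    (h1 : ∀ k i, T.nx k (T.nx k i) = i)
    (h2 : ∀ k i, isRel cx (T.lb k (T.nx k i) ++ T.lb k i) = true) (w : List (Fin 6)) (i : Fin K)
    (g : G) : lp (act T cx x h h1 h2) w (i, g) = (nxw T w i, lp x (lbw T w i) * g) := by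
  induction w with
  | nil => simp [lp, nxw, lbw]
  | cons k w ih =>
    rw [lp_cons, Equiv.Perm.mul_apply, ih, nxw, lbw, lp_append, mul_assoc]
    rfl

theorem lift_word {M : Type} [Group M] (x : Fin 6 → M) (w : List (Fin 6)) :
    FreeGroup.lift x (lp FreeGroup.of w) = lp x w := by
  induction w with
  | nil => simp [lp_nil]
  | cons k w ih => rw [lp_cons, lp_cons, map_mul, ih, FreeGroup.lift_apply_of]

theorem lp_one_of (cx : Fin 6 → Fin 6 → ℕ) (x : Fin 6 → G) (h : Cx cx x)
    (h1 : ∀ k i, T.nx k (T.nx k i) = i)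
    (h2 : ∀ k i, isRel cx (T.lb k (T.nx k i) ++ T.lb k i) = true) (w : List (Fin 6))
    (hw : ∀ i, nxw T w i = i) (hl : ∀ i, lp x (lbw T w i) = 1) :
    lp (act T cx x h h1 h2) w = 1 := by
  refine Equiv.ext ?_
  rintro ⟨i, g⟩
  rw [act_word, hw, hl, one_mul]
  rfl

theorem pow_one_of (cx : Fin 6 → Fin 6 → ℕ) (x : Fin 6 → G) (h : Cx cx x)
    (h1 : ∀ k i, T.nx k (T.nx k i) = i)
    (h2 : ∀ k i, isRel cx (T.lb k (T.nx k i) ++ T.lb k i) = true) (w : List (Fin 6)) (n : ℕ)
    (hw : ∀ i, nxw T w i = i) (hl : ∀ i, lp x (lbw T w i) ^ n = 1) :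
    lp (act T cx x h h1 h2) w ^ n = 1 := by
  have h3 : ∀ m : ℕ, ∀ i g, (lp (act T cx x h h1 h2) w ^ m) (i, g) =
      (i, lp x (lbw T w i) ^ m * g) := by
    intro m
    induction m with
    | zero => simp
    | succ m ih =>
      intro i g
      rw [pow_succ', Equiv.Perm.mul_apply, ih, act_word, hw, pow_succ', mul_assoc]
  refine Equiv.ext ?_
  rintro ⟨i, g⟩
  rw [h3, hl, one_mul]
  rfl

/-- Finiteness: `A` acts on `Fin K × G`, `G` is generated by the `x k`, and some words of `A` act on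
the coset `i₀` as the `x k`. -/
theorem finite_of {A : Type} [Group A] [Finite A] (φ : A →* Equiv.Perm (Fin K × G)) (x : Fin 6 → G)
    (hsq : ∀ s, x s * x s = 1) (hx : Subgroup.closure (Set.range x) = ⊤) (i₀ : Fin K)
    (ha : ∀ k, ∃ a : A, ∀ g, φ a (i₀, g) = (i₀, x k * g)) : Finite G := by
  have h1 : ∀ g : G, ∃ a : A, φ a (i₀, 1) = (i₀, g) := by
    intro g
    have hg : g ∈ Subgroup.closure (Set.range x) := by
      rw [hx]
      exact Subgroup.mem_top g
    induction hg using Subgroup.closure_induction_left with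
    | one => exact ⟨1, by rw [map_one]; rfl⟩
    | mul_left y hy z _ ih =>
      obtain ⟨k, rfl⟩ := hy
      obtain ⟨a, ha1⟩ := ih
      obtain ⟨b, hb⟩ := ha k
      exact ⟨b * a, by rw [map_mul, Equiv.Perm.mul_apply, ha1, hb]⟩
    | inv_mul_cancel y hy z _ ih =>
      obtain ⟨k, rfl⟩ := hy
      obtain ⟨a, ha1⟩ := ih
      obtain ⟨b, hb⟩ := ha k
      refine ⟨b * a, ?_⟩
      rw [map_mul, Equiv.Perm.mul_apply, ha1, hb, inv_eq_of_mul_eq_one_left (hsq k)]
  choose f hf using h1
  exact Finite.of_injective f fun g g' h => by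
    have e1 := hf g
    rw [h, hf g'] at e1
    exact (Prod.ext_iff.1 e1).2.symm

end Pool.Agent.Lib.MP_c2d01e_co.Fi
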